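import Pool.Agent.PFC.StmtsB6b
import Pool.Agent.AT6.Stmts2
import Pool.Agent.Helper14_AT8.FRY
import Pool.Agent.Helper87_AT8.KNZ

/-!
# Squad PFC, row LPB: the local algebras
-/

open scoped BigOperators

noncomputable section

namespace Pool.Agent.PFC.H8

open Pool.Agent.Helper51_AWC Pool.Agent.Helper79_WRA Pool.Agent.PP Pool.Agent.PP.KF
open Pool.Agent.PP.K9 Pool.Agent.PP.K9.H97 Pool.Agent.PP.H75 Pool.Agent.PP.T3

attribute [local instance] Ideal.Quotient.field

/-- the residue of a character is a class function which depends only on the regular part -/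
theorem rr_TT {ℓ : ℕ} [Fact ℓ.Prime] (M : Ideal (integralClosure ℤ ℂ)) [M.IsMaximal]
    (hM : (ℓ : integralClosure ℤ ℂ) ∈ M) {H : Type} [Group H] [Finite H] {χ : H → ℂ}
    (hχ : χ ∈ Irr H) : (fun h => rr M (χ h)) ∈ TT (FF M) H ℓ := by
  refine ⟨fun x y => ?_, fun x y hxy hy => ?_⟩
  · show rr M (χ (y * x * y⁻¹)) = rr M (χ x)
    rw [irr_conj hχ]
  · obtain ⟨n, hn⟩ := hy
    refine T8.H87.rr_reg M hM hχ _ _ n ?_
    rw [hxy.mul_pow, hn, mul_one]

/-- the residue of a character of `b` is invariant under `b` -/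
theorem actF_rr (M : Ideal (integralClosure ℤ ℂ)) [M.IsMaximal] {H : Type} [Group H] [Finite H]
    {b : H → FF M} (hb : IsIdem b) {χ : H → ℂ} (hχ : χ ∈ IrrE M b) :
    actF b (fun h => rr M (χ h)) = fun h => rr M (χ h) := by
  have := Fintype.ofFinite H
  have hidm := KF.H25.idm M H b hb
  funext x
  have h1 := (hidm.2.2 χ hχ.1 (dl ℂ x)).1 hχ.2
  have h2 : chv (dl ℂ x) χ = χ x := by
    rw [chv, finsum_eq_sum_of_fintype, Finset.sum_eq_single x]
    · rw [dl, if_pos rfl, one_mul]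
    · intro y _ hy
      rw [dl, if_neg hy, zero_mul]
    · intro h
      exact absurd (Finset.mem_univ _) h
  have h3 : mulF (eh M b) (dl ℂ x) = fun g => eh M b (g * x⁻¹) := by
    funext g
    rw [mulF, finsum_eq_sum_of_fintype, Finset.sum_eq_single (g * x⁻¹)]
    · rw [dl, if_pos (by group), mul_one]
    · intro y _ hy
      rw [dl, if_neg, mul_zero]
      intro h
      apply hy
      rw [← h]
      group
    · intro h
      exact absurd (Finset.mem_univ _) h
  rw [h2, h3, chv, finsum_eq_sum_of_fintype, ← Equiv.sum_comp (Equiv.mulRight x)] at h1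
  have h4 : ∑ t : H, eh M b t * χ (t * x) = χ x := by
    rw [← h1]
    refine Finset.sum_congr rfl fun t _ => ?_
    rw [Equiv.coe_mulRight, mul_inv_cancel_right]
  rw [actF, finsum_eq_sum_of_fintype, ← h4,
    rr_sum _ _ (fun t _ => (RM M).mul_mem (hidm.1 t).1 (RM_of_int (irr_integral hχ.1 _)))]
  refine Finset.sum_congr rfl fun t _ => ?_
  rw [rr_mul (hidm.1 t).1 (RM_of_int (irr_integral hχ.1 _)), (hidm.1 t).2]

/-- LPB -/
theorem lpb (lwd : T6.LwdStmt) (lno : LnoStmt) (rep : RepStmt) (nnz : NnzStmt) (pic : PicStmt) :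
    LpbStmt := by
  intro ℓ _ M _ hM G _ _ e V γ hL hFr W hWV hW1 f hf j hjj hjv hfj hjg hnz
  have hF : GoodF ℓ (FF M) := H50.fld ℓ Fact.out M hM
  obtain ⟨hLd, hTg⟩ := (lwd ℓ M hM G e V γ hL W hWV).2 f hf
  have hVX : V ≤ Subgroup.centralizer (W : Set G) := fun v hv =>
    Subgroup.mem_centralizer_iff.2 fun w hw => hL.ab w (hWV hw) v hv
  have hCX : Subgroup.centralizer (V : Set G) ≤ Subgroup.centralizer (W : Set G) :=
    Subgroup.centralizer_le (fun w hw => hWV hw)
  obtain ⟨w, hwW, hw1⟩ : ∃ w : G, w ∈ W ∧ w ≠ 1 := by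
    by_contra hcon
    push Not at hcon
    exact hW1 ((Subgroup.eq_bot_iff_forall W).2 hcon)
  have hix : ix (V.subgroupOf (Subgroup.centralizer (W : Set G)))
      (fun t : Subgroup.centralizer (W : Set G) => γ t) = 1 := by
    refine Subgroup.relIndex_eq_one.2 fun t ht => ?_
    have h1 : (t : G) ∈ Tg V γ := (hTg t).1 ht
    have h2 : (t : G) * w = w * t :=
      (Subgroup.mem_centralizer_iff.1 t.2 w hwW).symm
    exact (cent_sub hVX t).2 (hFr t h1 w (hWV hwW) hw1 h2)
  obtain ⟨fH, hfH⟩ : ∃ fH : Subgroup.centralizer (W : Set G) → FF M,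
    fH = fun t : Subgroup.centralizer (W : Set G) => f t := ⟨_, rfl⟩
  rw [← hfH] at hLd hfj
  have hfI : IsIdem fH := hLd.blk.1
  have h1 := lno ℓ M hM _ fH _ _ hLd hix
  obtain ⟨N, ρ, hirr, hone, hnil, hφ⟩ := rep ℓ (FF M) hF _ fH hfI h1
  obtain ⟨χ, hχ⟩ := T8.H14.irrE_nonempty M hfI hLd.blk.2.1
  obtain ⟨z, hz⟩ := hφ _ (rr_TT M hM hχ.1) (actF_rr M hfI hχ)
  have h2 := nnz ℓ M hM _ fH _ _ hLd hix j hjj (fun v hv x => hjv v hv x) hjg (by
    intro κ hκ
    obtain ⟨φ, hφe⟩ : ∃ φ, φ = T3.H85.cequiv hVX hCX := ⟨_, rfl⟩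
    have hκ' : (fun t => κ (φ.symm t)) ∈ IrrE M
        (fun t : Subgroup.centralizer (V : Set G) => γ t) := by
      apply T8.H14.irrE_equiv φ.symm hL.gam.blk.1.1
      rw [hφe]
      exact hκ
    have h3 := hnz _ hκ'
    rw [← finsum_comp_equiv φ.toEquiv] at h3
    intro h4
    apply h3
    rw [← h4]
    refine finsum_congr fun t => ?_
    have h5 : ((φ.toEquiv t : Subgroup.centralizer (V : Set G)) : G) =
        ((t : Subgroup.centralizer (W : Set G)) : G) := by
      rw [hφe]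
      rfl
    have h6 : φ.symm (φ.toEquiv t) = t := φ.symm_apply_apply t
    rw [h6, h5, PP.ext0, dif_pos t.1.2]) χ hχ
  have := Fintype.ofFinite (Subgroup.centralizer (W : Set G))
  have h3 : (ev ρ j).trace ≠ 0 := by
    intro h4
    apply h2
    have h5 : ∀ h, rr M (χ h) = z * PP.tr ρ h := fun h => congrFun hz h
    have h6 : (ev ρ j).trace = ∑ h, j h * PP.tr ρ h := by
      rw [ev, finsum_eq_sum_of_fintype, Matrix.trace_sum]
      exact Finset.sum_congr rfl fun h _ => by rw [Matrix.trace_smul, smul_eq_mul, PP.tr]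
    rw [finsum_eq_sum_of_fintype]
    have h7 : ∀ h, j h * rr M (χ h) = z * (j h * PP.tr ρ h) := fun h => by rw [h5]; ring
    rw [Finset.sum_congr rfl fun h _ => h7 h, ← Finset.mul_sum, ← h6, h4, mul_zero]
  refine pic (FF M) _ N ρ hirr j hjj h3 fun a ha _ hev => hnil a ?_ hev
  rw [← ha, ← mulF_assoc, hfj]

end Pool.Agent.PFC.H8
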