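import Pool.Agent.PFC.StmtsB6b
import Pool.Agent.Helper50_PP.Chi
import Pool.Agent.Helper63_AT3.INR
import Pool.Agent.Helper25_KF.Idm

/-!
# Squad PFC, row NNZ: the characters of a block of inertial index one at the idempotent
-/

open scoped BigOperators

noncomputable section

namespace Pool.Agent.PFC.H8

open Pool.Agent.Helper51_AWC Pool.Agent.Helper79_WRA Pool.Agent.PP Pool.Agent.PP.KF
open Pool.Agent.PP.K9 Pool.Agent.PP.K9.H97 Pool.Agent.PP.H75 Pool.Agent.PP.T3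

attribute [local instance] Ideal.Quotient.field

/-- NNZ -/
theorem nnz (lft : T8.LftStmt) (omi : T8.OmiStmt) (knz : T8.KnzStmt) (nit : NitStmt)
    (nil : NilStmt) (dgc : DgcStmt) : NnzStmt := by
  intro ℓ _ M _ hM H _ _ b V γ hL hix j hjj hjv hjg hnz χ hχ
  obtain ⟨i, hi, -, hij⟩ := lft M H V ⊤ j hjj (fun g hg => absurd (Subgroup.mem_top g) hg) hjv
  obtain ⟨⟨d, hd⟩, hcard, -⟩ := nil ℓ M hM H b V γ hL hix
  obtain ⟨c, hc⟩ := dgc ℓ M hM H b V γ hL
  have hκne : ∃ κ, κ ∈ IrrE M (fun t : Subgroup.centralizer (V : Set H) => γ t) := by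
    by_contra hcon
    push Not at hcon
    have hI := hL.gam.blk.1
    apply hL.gam.blk.2.1
    funext g
    have h1 := ((KF.H25.idm M _ _ hI).1 g).2
    rw [← h1]
    have h2 : IrrE M (fun t : Subgroup.centralizer (V : Set H) => γ t) = ∅ :=
      Set.eq_empty_of_forall_notMem hcon
    rw [eh, h2, finsum_mem_empty, mul_zero, rr_zero]
    rfl
  obtain ⟨κ, hκ⟩ := hκne
  obtain ⟨hQ, -⟩ := knz ℓ M hM H b V γ hL c hc
  obtain ⟨ε, hε, hR, hR'⟩ := nit ℓ M hM H b V γ hL hix d c hd hc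
  have hgm : mulF (br V (T8.rd M i)) γ = br V (T8.rd M i) := by rw [hij]; exact hjg
  obtain ⟨hA, hB, hAB⟩ := omi ℓ M hM H b V γ hL i hi.rm hi.iv hgm χ hχ κ hκ
  rw [hix, Nat.cast_one, one_mul] at hAB
  have hχ1 : χ 1 = d := hd.2 χ hχ
  have hκ1 : κ 1 = c := hc.2 κ hκ
  rw [hχ1] at hA hAB
  rw [hκ1] at hB hAB
  have hc0 : (c : ℂ) ≠ 0 := by
    have := hc.1
    exact_mod_cast this.ne'
  have hd0 : (d : ℂ) ≠ 0 := by
    have := hd.1
    exact_mod_cast this.ne'
  have hV0 : (Nat.card V : ℂ) ≠ 0 := by exact_mod_cast Nat.card_pos.ne'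
  have hC0 : (Nat.card (Subgroup.centralizer (V : Set H)) : ℂ) ≠ 0 := by
    exact_mod_cast Nat.card_pos.ne'
  obtain ⟨X, hX⟩ : ∃ X : ℂ, X = ∑ᶠ t : Subgroup.centralizer (V : Set H), i t * κ t := ⟨_, rfl⟩
  rw [← hX] at hB hAB
  have := Fintype.ofFinite H
  have := Fintype.ofFinite (Subgroup.centralizer (V : Set H))
  have hrX : rr M X = ∑ᶠ t : Subgroup.centralizer (V : Set H), j t * rr M (κ t) := by
    have hk : ∀ t, κ t ∈ RM M := fun t => RM_of_int (irr_integral hκ.1 t)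
    rw [hX, finsum_eq_sum_of_fintype, finsum_eq_sum_of_fintype,
      rr_sum _ _ (fun (t : Subgroup.centralizer (V : Set H)) _ =>
        (RM M).mul_mem (hi.rm (t : H)) (hk t))]
    refine Finset.sum_congr rfl fun t _ => ?_
    rw [rr_mul (hi.rm t) (hk t), ← hij]
    rfl
  have hrY : rr M (chv i χ) = ∑ᶠ h, j h * rr M (χ h) := by
    have hk : ∀ t, χ t ∈ RM M := fun t => RM_of_int (irr_integral hχ.1 t)
    rw [chv, finsum_eq_sum_of_fintype, finsum_eq_sum_of_fintype,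
      rr_sum _ _ (fun t _ => (RM M).mul_mem (hi.rm t) (hk t))]
    refine Finset.sum_congr rfl fun t _ => ?_
    rw [rr_mul (hi.rm t) (hk t), ← hij]
    rfl
  have hYm : chv i χ ∈ RM M := by
    rw [chv, finsum_eq_sum_of_fintype]
    exact (RM M).sum_mem fun t _ => (RM M).mul_mem (hi.rm t) (RM_of_int (irr_integral hχ.1 t))
  rw [← hrY]
  intro hzero
  apply hnz κ hκ
  rw [← hrX]
  have e2 : X = (Nat.card (Subgroup.centralizer (V : Set H)) * X / (Nat.card V * c)) *
      ((Nat.card V * c : ℂ) / Nat.card (Subgroup.centralizer (V : Set H))) := by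
    field_simp
  have e3 : (Nat.card H * chv i χ / (Nat.card V * d)) *
      ((Nat.card V * c : ℂ) / Nat.card (Subgroup.centralizer (V : Set H))) =
      chv i χ * ((Nat.card H * c : ℂ) /
        (Nat.card (Subgroup.centralizer (V : Set H)) * d)) := by
    field_simp
  rw [e2, rr_mul hB hQ, ← hAB, ← rr_mul hA hQ, e3, rr_mul hYm hR, hzero, zero_mul]

end Pool.Agent.PFC.H8
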